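import Pool.Agent.H20.SM.TP
import Pool.Agent.H4.BV.FT
import Pool.Agent.H62.BV.IN

/-!
# Row SWF of the board `sm_modules`: small conductors, with one exceptional modulus
-/

set_option autoImplicit false

open Finset Real ArithmeticFunction NumberField NumberField.InfinitePlace

namespace Pool.Agent.H32.SM

open Pool.Agent.H20.SM
open Pool.Agent.H30.BV (cv DS TX wx NX T_IN)

theorem swf_ev (K : ℝ) (E : ℕ) : ∀ᶠ y : ℝ in Filter.atTop, K * Real.log y ^ E ≤ y := by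
  have h7 : (fun y : ℝ => Real.log y ^ E) =o[Filter.atTop] (fun y : ℝ => y) :=
    Real.isLittleO_pow_log_id_atTop
  have h8 := h7.bound (show (0 : ℝ) < 1 / (|K| + 1) by positivity)
  filter_upwards [h8, Filter.eventually_ge_atTop (1 : ℝ)] with X hX hX1
  have h0 : 0 ≤ Real.log X := Real.log_nonneg hX1
  rw [Real.norm_of_nonneg (by positivity), Real.norm_of_nonneg (by linarith)] at hX
  have h9 : (|K| + 1) * Real.log X ^ E ≤ X := by
    calc (|K| + 1) * Real.log X ^ E ≤ (|K| + 1) * (1 / (|K| + 1) * X) := by gcongr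
      _ = X := by field_simp
  have h10 : 0 ≤ Real.log X ^ E := by positivity
  have h11 : (|K| + 1) * Real.log X ^ E = |K| * Real.log X ^ E + Real.log X ^ E := by ring
  have h12 : K * Real.log X ^ E ≤ |K| * Real.log X ^ E :=
    mul_le_mul_of_nonneg_right (le_abs_self K) h10
  linarith

/-- scaling of the coefficients: the Dirichlet series -/
theorem swf_DS (f : ℕ → ℂ) (c : ℂ) (k : ℕ) (s : ℂ) :
    DS (fun n => (Λ n : ℂ) * (c * f n)) k s = c * DS (fun n => (Λ n : ℂ) * f n) k s := by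
  unfold DS
  have h : (fun n => (Λ n : ℂ) * (c * f n) * ((Real.log n ^ k : ℝ) : ℂ)) =
      c • fun n => (Λ n : ℂ) * f n * ((Real.log n ^ k : ℝ) : ℂ) := by
    funext n
    simp only [Pi.smul_apply, smul_eq_mul]
    ring
  rw [h, LSeries_smul]

/-- scaling of the coefficients: the weighted sum -/
theorem swf_TX (f : ℕ → ℂ) (c : ℂ) (X : ℝ) : TX X (fun n => c * f n) = c * TX X f := by
  unfold TX
  rw [Finset.mul_sum]
  exact Finset.sum_congr rfl fun n _ => by ring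

theorem pf_SWF (hCFF : T_CFF) (hLOF : T_LOF) (hGBF : T_GBF) : T_SWF := by
  intro F _ _ _ A B
  obtain ⟨K, c, hc0, hc1, hLO⟩ := hLOF F
  obtain ⟨C₁, E₁, hC₁, hGB⟩ := hGBF F (B + 1)
  obtain ⟨hg, -, -⟩ := hCFF F
  obtain ⟨N, hN⟩ : ∃ N : ℝ, N = (Module.finrank ℚ F : ℝ) + 1 := ⟨_, rfl⟩
  have hfr0 : (0 : ℝ) ≤ (Module.finrank ℚ F : ℝ) := Nat.cast_nonneg _
  have hN1 : 1 ≤ N := by rw [hN]; linarith
  have hN0 : 0 < N := by linarith
  obtain ⟨E, hE⟩ : ∃ E : ℕ, E = (K + 1) * E₁ := ⟨_, rfl⟩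
  obtain ⟨C₂, hC₂, hIN⟩ := Pool.Agent.H62.BV.inn Pool.Agent.H4.BV.ft (B + 1) E
  obtain ⟨C₃, hC₃⟩ : ∃ C₃ : ℝ, C₃ = N * (C₂ * (C₁ * (2 / c) ^ E₁)) * ((A : ℝ) + 1) ^ E :=
    ⟨_, rfl⟩
  have h1 : ∀ᶠ X : ℝ in Filter.atTop, (8 : ℝ) ≤ X := Filter.eventually_ge_atTop _
  have h2 : ∀ᶠ X : ℝ in Filter.atTop, (4 : ℝ) ≤ Real.log X :=
    Real.tendsto_log_atTop.eventually_ge_atTop _
  have h3 : ∀ᶠ X : ℝ in Filter.atTop, C₃ * Real.log (Real.log X) ^ E ≤ Real.log X :=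
    Real.tendsto_log_atTop.eventually (swf_ev C₃ E)
  obtain ⟨X₀, hX₀⟩ := Filter.eventually_atTop.1 ((h1.and h2).and h3)
  refine ⟨X₀, fun X hX => ?_⟩
  obtain ⟨⟨g1, hl4⟩, g3⟩ := hX₀ X hX
  have hl1 : 1 ≤ Real.log X := by linarith
  have hl0 : 0 < Real.log X := by linarith
  obtain ⟨Q, hQ⟩ : ∃ Q : ℕ, Q = ⌊Real.log X ^ (A + 1)⌋₊ := ⟨_, rfl⟩
  have hpow : Real.log X ≤ Real.log X ^ (A + 1) := by
    calc Real.log X = Real.log X ^ 1 := (pow_one _).symm
      _ ≤ Real.log X ^ (A + 1) := pow_le_pow_right₀ hl1 (by omega)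
  have hQle : (Q : ℝ) ≤ Real.log X ^ (A + 1) := by
    rw [hQ]
    exact Nat.floor_le (by positivity)
  have hQ3 : 3 ≤ Q := by
    rw [hQ]
    apply Nat.le_floor
    push_cast
    linarith
  obtain ⟨q₁, hq⟩ := hLO Q hQ3
  refine ⟨q₁, ?_⟩
  intro r χ hr2 hrA hne hRok hprim
  have hrQ : r ≤ Q := by
    rw [hQ]
    apply Nat.le_floor
    exact hrA.trans (pow_le_pow_right₀ hl1 (by omega))
  have he : Real.exp 1 ≤ 3 := by linarith [Real.exp_one_lt_d9]
  have hlog3 : ∀ x : ℝ, 3 ≤ x → 1 ≤ Real.log x := by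
    intro x hx
    rw [Real.le_log_iff_exp_le (by linarith)]
    linarith
  have hQ3' : (3 : ℝ) ≤ Q := by exact_mod_cast hQ3
  have hL1 : 1 ≤ Real.log Q := hlog3 _ hQ3'
  have hLQ : Real.log Q ≤ ((A : ℝ) + 1) * Real.log (Real.log X) := by
    calc Real.log Q ≤ Real.log (Real.log X ^ (A + 1)) := Real.log_le_log (by linarith) hQle
      _ = ((A : ℝ) + 1) * Real.log (Real.log X) := by rw [Real.log_pow]; push_cast; ring
  have hNinv : ‖((N⁻¹ : ℝ) : ℂ)‖ = N⁻¹ := by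
    rw [Complex.norm_real, Real.norm_of_nonneg (by positivity)]
  have hgc : ∀ n, ‖gc F χ n‖ ≤ N := by
    intro n
    unfold gc
    rw [norm_mul, Complex.norm_real, Real.norm_of_nonneg (hg n).1]
    have h5 : ‖cv χ n‖ ≤ 1 := DirichletCharacter.norm_le_one χ _
    calc gF F n * ‖cv χ n‖ ≤ gF F n * 1 := mul_le_mul_of_nonneg_left h5 (hg n).1
      _ ≤ N := by rw [hN]; linarith [(hg n).2]
  have hmain := hIN (fun n => ((N⁻¹ : ℝ) : ℂ) * gc F χ n) X
    (C₁ * (2 / c) ^ E₁ * Real.log Q ^ E)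
    (fun n => by
      rw [norm_mul, hNinv, inv_mul_le_iff₀ hN0, mul_one]
      exact hgc n) g1 (by
      intro t
      obtain ⟨s, hs⟩ : ∃ s : ℂ, s = ((1 + 1 / Real.log X : ℝ) : ℂ) + t * Complex.I := ⟨_, rfl⟩
      have hre : s.re = 1 + 1 / Real.log X := by rw [hs]; simp
      have him : s.im = t := by rw [hs]; simp
      have hinv : 0 < 1 / Real.log X := by positivity
      have hinv1 : 1 / Real.log X ≤ 1 := by
        rw [div_le_one hl0]; exact hl1
      have hs1 : 1 < s.re := by rw [hre]; linarith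
      have hs2 : s.re ≤ 2 := by rw [hre]; linarith
      rw [← hs]
      have hL2 : 1 ≤ Real.log (|t| + 3) := hlog3 _ (by linarith [abs_nonneg t])
      obtain ⟨L₁, hL₁⟩ : ∃ L₁ : ℝ, L₁ = Real.log Q := ⟨_, rfl⟩
      obtain ⟨L₂, hL₂⟩ : ∃ L₂ : ℝ, L₂ = Real.log (|t| + 3) := ⟨_, rfl⟩
      have hlow := hq r χ s hr2 hrQ hne hRok hprim hs1 hs2
      rw [him, ← hL₁, ← hL₂] at hlow
      rw [← hL₁] at hL1 ⊢
      rw [← hL₂] at hL2 ⊢
      have hLL : 1 ≤ L₁ * L₂ := by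
        calc (1 : ℝ) = 1 * 1 := by ring
          _ ≤ L₁ * L₂ := mul_le_mul hL1 hL2 (by norm_num) (by linarith)
      have hLLK : 1 ≤ (L₁ * L₂) ^ K := one_le_pow₀ hLL
      have hm0 : 0 < c / (L₁ * L₂) ^ K := by positivity
      have hm1 : c / (L₁ * L₂) ^ K ≤ 1 := by
        rw [div_le_one (by positivity)]
        linarith
      have hG := hGB r χ s (c / (L₁ * L₂) ^ K) hr2 hRok hprim hs1 hs2 hm0 hm1 hlow
      rw [him] at hG
      rw [swf_DS, norm_mul, hNinv]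
      have hNle : N⁻¹ ≤ 1 := inv_le_one_of_one_le₀ hN1
      refine (mul_le_of_le_one_left (norm_nonneg _) hNle).trans (hG.trans ?_)
      have hq0 : (0 : ℝ) < r := by
        have : 0 < r := by omega
        exact_mod_cast this
      have hlogq : Real.log ((r : ℝ) * (|t| + 3)) ≤ 2 * (L₁ * L₂) := by
        rw [Real.log_mul hq0.ne' (by positivity), ← hL₂]
        have h5 : Real.log r ≤ L₁ := by
          rw [hL₁]
          exact Real.log_le_log hq0 (by exact_mod_cast hrQ)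
        have h51 : L₁ ≤ L₁ * L₂ := le_mul_of_one_le_right (by linarith) hL2
        have h52 : L₂ ≤ L₁ * L₂ := le_mul_of_one_le_left (by linarith) hL1
        linarith
      have hlogq0 : 0 ≤ Real.log ((r : ℝ) * (|t| + 3)) := by
        apply Real.log_nonneg
        have h6 : (2 : ℝ) ≤ r := by exact_mod_cast hr2
        exact one_le_mul_of_one_le_of_one_le (by linarith) (by linarith [abs_nonneg t])
      have hfrac : Real.log ((r : ℝ) * (|t| + 3)) / (c / (L₁ * L₂) ^ K) ≤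
          2 / c * (L₁ * L₂) ^ (K + 1) := by
        rw [div_le_iff₀ hm0]
        calc Real.log ((r : ℝ) * (|t| + 3)) ≤ 2 * (L₁ * L₂) := hlogq
          _ = 2 / c * (L₁ * L₂) ^ (K + 1) * (c / (L₁ * L₂) ^ K) := by
            have h7 : (L₁ * L₂) ^ K ≠ 0 := by positivity
            rw [pow_succ]
            field_simp
      calc C₁ * (Real.log ((r : ℝ) * (|t| + 3)) / (c / (L₁ * L₂) ^ K)) ^ E₁ ≤
            C₁ * (2 / c * (L₁ * L₂) ^ (K + 1)) ^ E₁ := by gcongr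
        _ = C₁ * (2 / c) ^ E₁ * L₁ ^ E * L₂ ^ E := by
          rw [mul_pow, ← pow_mul, ← hE, mul_pow]
          ring)
  rw [swf_TX, norm_mul, hNinv, inv_mul_le_iff₀ hN0] at hmain
  refine hmain.trans ?_
  have hlQE : Real.log Q ^ E ≤ (((A : ℝ) + 1) * Real.log (Real.log X)) ^ E :=
    pow_le_pow_left₀ (by linarith) hLQ E
  have hfin : N * (C₂ * (C₁ * (2 / c) ^ E₁ * Real.log Q ^ E)) ≤ Real.log X := by
    calc N * (C₂ * (C₁ * (2 / c) ^ E₁ * Real.log Q ^ E)) ≤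
          N * (C₂ * (C₁ * (2 / c) ^ E₁ *
            (((A : ℝ) + 1) * Real.log (Real.log X)) ^ E)) := by gcongr
      _ = C₃ * Real.log (Real.log X) ^ E := by rw [hC₃, mul_pow]; ring
      _ ≤ Real.log X := g3
  have hX0 : 0 < X := by linarith
  calc N * (C₂ * (C₁ * (2 / c) ^ E₁ * Real.log Q ^ E) * X / Real.log X ^ (B + 1)) =
        N * (C₂ * (C₁ * (2 / c) ^ E₁ * Real.log Q ^ E)) * X / Real.log X ^ (B + 1) := by ring
    _ ≤ Real.log X * X / Real.log X ^ (B + 1) := by gcongr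
    _ = X / Real.log X ^ B := by
      rw [pow_succ]
      field_simp

end Pool.Agent.H32.SM
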